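import Pool.Agent.helper34.AC.Spec

/-!
Module ISO of project ac: (MP_e0bd72_co): adding an isolated vertex.
-/

set_option autoImplicit false

namespace Pool.Agent.helper34.AC

theorem ISO_mem_col {V : Type} (G : SimpleGraph V) (U : Finset V) (P : Finset (Finset V)) (h : P ∈ col G U) :
    ∀ S ∈ P, S.Nonempty ∧ S ⊆ U ∧ Stab G S := by
  classical
  unfold col at h
  exact (Finset.mem_filter.1 h).2.1

theorem ISO_mem_st {V : Type} (G : SimpleGraph V) (U : Finset V) (x : V) (hx : ∀ u ∈ U, ¬ G.Adj x u)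
    (S : Finset V) : S ∈ st G {x} U ↔ S ⊆ U ∧ Stab G S := by
  classical
  unfold st
  rw [Finset.mem_filter, Finset.mem_powerset]
  constructor
  · rintro ⟨h1, h2⟩
    exact ⟨h1, fun a ha => (h2 a ha).1⟩
  · rintro ⟨h1, h2⟩
    refine ⟨h1, fun a ha => ⟨h2 a ha, ?_⟩⟩
    intro y hy
    rw [Finset.mem_singleton] at hy
    subst hy
    intro hadj
    exact hx a (h1 ha) hadj.symm

theorem ISO (hMRK : MRK_stmt) (hREC : REC_stmt) : ISO_stmt := by
  classical
  intro V _ G U x f hxU hx
  have h1 := hREC V G (insert x U) x (fun P => f P.card) (Finset.mem_insert_self x U)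
  rw [Finset.erase_insert hxU] at h1
  rw [h1]
  -- the cardinality of the new partitions
  have h2 : ∀ S ∈ st G {x} U, ∑ P ∈ col G (U \ S), f (insert (insert x S) P).card =
      ∑ P ∈ col G (U \ S), f (P.card + 1) := by
    intro S _
    refine Finset.sum_congr rfl fun P hP => ?_
    rw [Finset.card_insert_of_notMem]
    intro hmem
    have h3 := (ISO_mem_col G _ P hP _ hmem).2.1 (Finset.mem_insert_self x S)
    exact hxU (Finset.mem_sdiff.1 h3).1
  rw [Finset.sum_congr rfl h2]
  have h0 : (∅ : Finset V) ∈ st G {x} U := by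
    rw [ISO_mem_st G U x hx]
    exact ⟨Finset.empty_subset U, fun a ha => absurd ha (Finset.notMem_empty a)⟩
  rw [← Finset.add_sum_erase _ _ h0, Finset.sdiff_empty]
  have h4 : ∀ S ∈ (st G {x} U).erase ∅, ∑ P ∈ col G (U \ S), f (P.card + 1) =
      ∑ P ∈ (col G U).filter (fun P => S ∈ P), f P.card := by
    intro S hS
    rw [Finset.mem_erase, ISO_mem_st G U x hx] at hS
    obtain ⟨hS0, hSU, hSt⟩ := hS
    have hSn : S.Nonempty := Finset.nonempty_iff_ne_empty.2 hS0
    have h5 := hMRK V G U S (fun P => f P.card) hSU hSn hSt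
    rw [h5]
    refine Finset.sum_congr rfl fun P hP => ?_
    rw [Finset.card_insert_of_notMem]
    intro hmem
    obtain ⟨a, ha⟩ := hSn
    have h6 := (ISO_mem_col G _ P hP _ hmem).2.1 ha
    exact (Finset.mem_sdiff.1 h6).2 ha
  rw [Finset.sum_congr rfl h4]
  have h7 : ∑ S ∈ (st G {x} U).erase ∅, ∑ P ∈ (col G U).filter (fun P => S ∈ P), f P.card =
      ∑ P ∈ col G U, ∑ _S ∈ P, f P.card := by
    apply Finset.sum_comm'
    intro S P
    rw [Finset.mem_filter, Finset.mem_erase, ISO_mem_st G U x hx]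
    constructor
    · rintro ⟨_, h8, h9⟩
      exact ⟨h9, h8⟩
    · rintro ⟨h8, h9⟩
      obtain ⟨ha, hb, hc⟩ := ISO_mem_col G U P h9 S h8
      exact ⟨⟨ha.ne_empty, hb, hc⟩, h9, h8⟩
  rw [h7, ← Finset.sum_add_distrib]
  refine Finset.sum_congr rfl fun P _ => ?_
  rw [Finset.sum_const, nsmul_eq_mul, add_comm]

end Pool.Agent.helper34.AC
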