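import Pool.Agent.helper34.AC.Spec

/-!
Module KUN of project ac: (MP_e0bd72_co): the numbers of partitions of a clique with isolated vertices.
-/

set_option autoImplicit false

namespace Pool.Agent.helper34.AC

/-- The operator `(L f)(k) = k f(k) + f(k+1)`. -/
noncomputable def KUN_L (f : ℕ → ℝ) : ℕ → ℝ := fun k => (k : ℝ) * f k + f (k + 1)

theorem KUN_F (hBRC : BRC_stmt) (m : ℕ) : ∀ k : ℕ, (KUN_L^[m] (fun _ => (1 : ℝ))) k = F m k := by
  induction m with
  | zero =>
    intro k
    rw [Function.iterate_zero, id_eq, hBRC.1]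
  | succ m ih =>
    intro k
    rw [Function.iterate_succ_apply', hBRC.2.1]
    show (k : ℝ) * (KUN_L^[m] (fun _ => (1 : ℝ))) k + (KUN_L^[m] (fun _ => (1 : ℝ))) (k + 1) = _
    rw [ih, ih]
    push_cast
    ring

theorem KUN_sum (hISO : ISO_stmt) (hCLQ : CLQ_stmt) (V : Type) [DecidableEq V] (G : SimpleGraph V)
    (C : Finset V) (hC : ∀ x ∈ C, ∀ y ∈ C, x ≠ y → G.Adj x y) (I : Finset V) :
    Disjoint C I → (∀ x ∈ I, ∀ y ∈ C ∪ I, ¬ G.Adj x y) →
    ∀ f : ℕ → ℝ, ∑ P ∈ col G (C ∪ I), f P.card = (KUN_L^[I.card] f) C.card := by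
  induction I using Finset.induction_on with
  | empty =>
    intro _ _ f
    rw [Finset.union_empty, Finset.card_empty, Function.iterate_zero, id_eq]
    exact hCLQ V G C f hC
  | insert a I ha ih =>
    intro hd hI f
    have hd' : Disjoint C I := hd.mono_right (Finset.subset_insert a I)
    have haC : a ∉ C := fun h => (Finset.disjoint_left.1 hd) h (Finset.mem_insert_self a I)
    have haU : a ∉ C ∪ I := by
      rw [Finset.mem_union]
      rintro (h | h)
      · exact haC h
      · exact ha h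
    have hI' : ∀ x ∈ I, ∀ y ∈ C ∪ I, ¬ G.Adj x y := fun x hx y hy =>
      hI x (Finset.mem_insert_of_mem hx) y (Finset.union_subset_union_right (Finset.subset_insert a I) hy)
    have hadj : ∀ u ∈ C ∪ I, ¬ G.Adj a u := fun u hu =>
      hI a (Finset.mem_insert_self a I) u (Finset.union_subset_union_right (Finset.subset_insert a I) hu)
    rw [Finset.union_insert, Finset.card_insert_of_notMem ha, Function.iterate_succ_apply,
      hISO V G (C ∪ I) a f haU hadj, ← ih hd' hI' (KUN_L f)]
    rfl

theorem KUN (hISO : ISO_stmt) (hCLQ : CLQ_stmt) (hBRC : BRC_stmt) : KUN_stmt := by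
  intro V _ G C I hd hC hI
  constructor
  · have h1 := KUN_sum hISO hCLQ V G C hC I hd hI (fun _ => 1)
    rw [KUN_F hBRC] at h1
    rw [← h1]
    simp [N]
  · have h1 := KUN_sum hISO hCLQ V G C hC I hd hI (KUN_L (fun _ => 1))
    rw [← Function.iterate_succ_apply, KUN_F hBRC] at h1
    rw [← h1]
    unfold N1
    refine Finset.sum_congr rfl fun P _ => ?_
    simp [KUN_L]

end Pool.Agent.helper34.AC
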